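import Pool.Agent.MP_5d9b3c_ag.P3V.Keep
import Pool.Agent.MP_5d9b3c_ag.P3G.Kit
import Pool.Agent.MP_5d9b3c_ag.P3T.F

/-!
The invariant frame in the two cases in which the surface is contracted to a point.
-/

namespace Pool.Agent.MP_5d9b3c_ag.P3V

open Pool.Agent.MP_ee8c61_ag M3 M3RESID M3F P3 P3T P3G Finset
open M3H47 (Gn)

noncomputable section

variable {F L : Type} [Field F] [Algebra F ℂ] [Field L] [Algebra ℂ L] {A : GA F L} {D : SD L}
  {X Y : VF L}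

theorem dg_uniq {S : Finset L} {o : DV L} {n n' : ℚ} (h : Dg S o n) (h' : Dg S o n') : n = n' := by
  have key : ∀ {s s'}, GnS S o s → GnS S o s' → o.v s ≤ o.v s' := fun {s s'} a b => by
    have := (a.2.2 s' b.1).resolve_left (div_ne_zero b.2.1 a.2.1)
    rw [div_eq_mul_inv, o.mul _ _ b.2.1 (inv_ne_zero a.2.1), o.inv] at this
    omega
  obtain ⟨s, a, e⟩ := h
  obtain ⟨s', b, e'⟩ := h'
  rw [le_antisymm (key a b) (key b a), e'] at e
  exact (neg_injective e).symm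

theorem vs_stb {S : Finset L} (hS : A.Stb S) (e : ℕ) : A.Stb (VS S e) :=
  fun σ g hg O h1 s hs s0 h2 => by
    have := hg (O.comap (A.ρ σ : L →+* L)) (fun c => by
      change A.ρ σ _ ∈ O
      rw [A.semi]
      exact h1 _) _ (hS σ⁻¹ s hs) ((map_ne_zero _).2 s0) fun t ht => by
        change A.ρ σ _ ∈ O
        rw [map_div₀, A.ap_inv]
        exact h2 _ (hS σ t ht)
    change A.ρ σ _ ∈ O at this
    rwa [map_div₀, map_pow, A.ap_inv] at this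

theorem Keep.conj (k : Keep D X) (h : D.OK) (hs : A.Stab D) (σ : Gm F) :
    Keep D ((A.si σ).vf X) := by
  refine ⟨?_, fun e g hg => ?_, fun Γ c hn => ?_⟩
  · have := hs.d.ex σ k.ex
    rwa [SI.vf_sub, GA.invV_iff.1 hs.v] at this
  · rw [SI.vf_apply, ← A.si_inv]
    exact vs_stb hs.S1 e σ _ (k.kp e _ (vs_stb hs.S1 e σ⁻¹ g hg))
  · obtain ⟨Γ, rfl⟩ := (A.si σ).dv_surj Γ
    have ex : (fun l => (A.si σ).e (D.x l)) = D.x := funext fun l => hs.x l σ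
    have c' : Cv D.x Γ := (A.si σ).cv.1 (ex.symm ▸ c)
    refine (k.lg Γ c' fun a => hn (ex ▸ ((A.si σ).null fun _ => hs.S1.iff σ).2 a)).imp
      (A.si σ).lv.2 fun ⟨a1, a2⟩ => ⟨fun j => ?_, ?_⟩
    · have e1 := dg_uniq (h.sem.dg1 _ c) (((A.si σ).dg fun _ => hs.S1.iff σ).2 (h.sem.dg1 _ c'))
      have e2 := dg_uniq (h.sem.dgj j _ c)
        (((A.si σ).dg fun _ => (hs.Sj j).iff σ).2 (h.sem.dgj j _ c'))
      rw [a1, mul_add, e1, mul_zero, add_zero, add_eq_left] at e2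
      exact eq_zero_of_ne_zero_of_mul_left_eq_zero h.sem.ε.ne'
        (eq_zero_of_ne_zero_of_mul_left_eq_zero (Nat.cast_ne_zero.2 h.sem.m.ne') e2)
    · obtain ⟨π, hπ⟩ := c.sur
      have e1 := (A.si σ).exp_rat.2 (h.vol.exp _ c')
      rw [GA.invD_iff.1 hs.d] at e1
      exact (Rat.cast_injective ((h.vol.exp _ c).uniq e1 hπ)).trans a2

theorem ex_avg {d : Dv L} {v : VF L} {T : Finset (Gm F)} (hT : T.Nonempty) {Y : Gm F → VF L}
    (h : ∀ τ, v - Y τ ∈ d.Ex) : v - (T.card : ℂ)⁻¹ • ∑ τ ∈ T, Y τ ∈ d.Ex := by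
  have := (ExS d).smul_mem (T.card : ℂ)⁻¹ ((ExS d).sum_mem fun τ (_ : τ ∈ T) => h τ)
  rwa [sum_sub_distrib, smul_sub, SA.avg_const hT] at this

theorem keep_avg {T : Finset (Gm F)} (hT : T.Nonempty) {Y : Gm F → VF L} (k : ∀ τ, Keep D (Y τ)) :
    Keep D ((T.card : ℂ)⁻¹ • ∑ τ ∈ T, Y τ) := by
  refine ⟨ex_avg hT fun τ => (k τ).ex, fun e g hg => ?_, fun Γ c hn => ?_⟩
  · rw [Derivation.smul_apply, sum_ap]
    exact Submodule.smul_mem _ _ (sum_mem fun τ _ => (k τ).kp e g hg)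
  · refine or_iff_not_imp_right.2 fun a => ?_
    rw [← algebraMap_smul L]
    exact LV_smul0 (cst_F _ _) (sum_mem fun τ _ => ((k τ).lg Γ c hn).resolve_right a)

theorem gn_conj (h : A.InvV X) (σ : Gm F) {l : ℂ} {a : L} (ha : a ∈ Gn X l) :
    A.ρ σ a ∈ Gn X (σ l) := by
  obtain ⟨k, hk⟩ := (Module.End.mem_maxGenEigenspace _ _ _).1 ha
  refine (Module.End.mem_maxGenEigenspace _ _ _).2 ⟨k, ?_⟩
  rw [← map_zero (A.ρ σ), ← hk]
  clear hk ha
  induction k with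
  | zero => rfl
  | succ k ih =>
    rw [pow_succ', pow_succ', Module.End.mul_apply, Module.End.mul_apply, ih]
    simp only [LinearMap.sub_apply, LinearMap.smul_apply, Module.End.one_apply, map_sub, A.smul]
    exact congrArg (· - _) (h σ _).symm

theorem gn_ind {W W' : Submodule ℂ L} [FiniteDimensional ℂ W] (hW : ∀ a ∈ W, X a ∈ W)
    (h : ∀ l, ∀ a ∈ W, a ∈ Gn X l → a ∈ W') : W ≤ W' :=
  (M3H47.le_gen (X : Module.End ℂ L) W hW).le.trans (iSup_le fun l a ha => h l a ha.1 ha.2)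

theorem gn_keep {b : ℂ} (h : ∀ l, ∀ a ∈ Gn X l, ∃ ρ : ℚ, Y a = (ρ * b) • a) (W : Submodule ℂ L)
    [FiniteDimensional ℂ W] (hW : ∀ a ∈ W, X a ∈ W) : ∀ a ∈ W, Y a ∈ W :=
  gn_ind (W' := W.comap (Y : L →ₗ[ℂ] L)) hW fun l a h1 h2 => by
    obtain ⟨ρ, e⟩ := h l a h2
    change Y a ∈ W
    exact e ▸ W.smul_mem _ h1

theorem frame {C : M3RESID.Co L 2} {d : Dv L} {v : VF L} {b : ℂ} (h : Srf C d v b)
    (V : Submodule ℂ L) [FiniteDimensional ℂ V] (hV : IntermediateField.adjoin ℂ (V : Set L) = ⊤)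
    (hX : v - X ∈ d.Ex) (hk : ∀ g ∈ V, X g ∈ V) :
    ∃ (w : VF L) (y t : L) (r : ℚ) (p : ℂ →+ ℚ), v - w ∈ d.Ex ∧
      (∀ l, ∀ a ∈ Gn X l, w a = (p l * b) • a) ∧ y ≠ 0 ∧ r ≠ 0 ∧ w y = (r * b) • y ∧
      (∀ K : IntermediateField ℂ L, M3H47.cst w ≤ K → y ∈ K → K = ⊤) ∧ w t = 0 ∧
      ∀ c : ℂ, t ≠ algebraMap ℂ L c := by
  have : CharZero L := charZero_of_injective_algebraMap (algebraMap ℂ L).injective
  obtain ⟨q, ψ, hq, hψ, hd⟩ := h.rat
  have hq0 : (q : L) ≠ 0 := Nat.cast_ne_zero.2 hq.ne'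
  have hF : M3H47.Fr C.z C.D := ⟨C.dual, fun t a => M3J.ap2 C t a⟩
  obtain ⟨w, y, t, -, r, -, p, -, e1, e2, hy, hr, e3, e4, -, e5, e6, -⟩ :=
    hF.frame d.δ d.smul hψ hq (fun i => by
      have : C.dv.δ (C.D i) = 0 := by
        change ∑ j, C.D j (C.D i (C.z j)) = 0
        refine Finset.sum_eq_zero fun j _ => ?_
        rw [C.dual]
        split_ifs <;> simp
      rw [hd, this, zero_add]
      field_simp) X h.ne (by
        have := d.δ_Ex hX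
        rw [map_sub, h.prim, sub_eq_zero] at this
        exact this.symm) V hk hV
  refine ⟨w, y, t, r, p, ?_, e2, hy, hr, e3, e4, e5, fun c e => e6 (by simp [M3H47.Jac, e])⟩
  have := add_mem hX (show X - w ∈ d.Ex from e1 ▸ d.B_mem _ _)
  rwa [sub_add_sub_cancel] at this

variable [Algebra.IsAlgebraic F ℂ]

/-- The invariant semisimple primitive. -/
theorem exists_ss (h : D.OK) (hs : A.Stab D) (hL : Lin D.S1) (k : Keep D X) (hX : A.InvV X) :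
    ∃ (w : VF L) (y t : L) (r : ℚ), A.InvV w ∧ D.v - w ∈ D.d.Ex ∧
      (∀ l, ∀ a ∈ Gn X l, ∃ ρ : ℚ, w a = (ρ * D.b) • a) ∧
      (∀ l, ∀ a ∈ Gn w l, ∃ ρ : ℚ, w a = (ρ * D.b) • a) ∧ y ∈ A.fix ∧ y ≠ 0 ∧ r ≠ 0 ∧
      w y = (r * D.b) • y ∧ (∀ K : IntermediateField ℂ L, M3H47.cst w ≤ K → y ∈ K → K = ⊤) ∧
      w t = 0 ∧ ∀ c : ℂ, t ≠ algebraMap ℂ L c := by
  obtain ⟨n, hn⟩ := hL.top
  have := hL.fin n
  obtain ⟨w1, -, -, -, p, a1, a2, -⟩ := frame h.vol.srf _ hn k.ex (k.kp n)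
  obtain ⟨T, b1, b2⟩ := (A.va D.C).avg w1
  set w := (T.card : ℂ)⁻¹ • ∑ τ ∈ T, (A.va D.C).a τ w1 with hw
  have b3 : D.v - w ∈ D.d.Ex := ex_avg ⟨1, b1⟩ fun τ => by
    have := hs.d.ex τ a1
    rwa [SI.vf_sub, GA.invV_iff.1 hs.v] at this
  have b4 : ∀ l, ∀ a ∈ Gn X l, ∃ ρ : ℚ, w a = (ρ * D.b) • a := fun l a ha => by
    refine ⟨(T.card : ℚ)⁻¹ * ∑ τ ∈ T, p (τ⁻¹ l), ?_⟩
    rw [hw, Derivation.smul_apply, sum_ap, Rat.cast_mul, mul_assoc, mul_smul, Rat.cast_sum,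
      sum_mul, sum_smul, Rat.cast_inv, Rat.cast_natCast]
    refine congrArg _ (sum_congr rfl fun τ _ => ?_)
    rw [GA.va_a, SI.vf_apply, ← A.si_inv, GA.si_e, GA.si_e, a2 _ _ (gn_conj hX τ⁻¹ ha), A.smul,
      A.ap_inv, map_mul, map_ratCast, hs.b]
  clear_value w
  obtain ⟨w', y, t, r, p', c1, c2, c3, c4, c5, c6⟩ :=
    frame h.vol.srf _ hn b3 (gn_keep b4 _ (k.kp n))
  have e1 : w' = (p' D.b : ℂ) • w := sub_eq_zero.1 (Derivation.ext
    ((M3H47.locFin_of X _ (k.kp n) hn).zero _ fun l a ha => by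
      obtain ⟨ρ, e⟩ := b4 l a ha
      have h1 : a ∈ Gn w (ρ * D.b) := (Module.End.mem_maxGenEigenspace _ _ _).2 ⟨1, by
        simpa [sub_eq_zero] using e⟩
      have h2 : p' (ρ * D.b) = ρ * p' D.b := by rw [← Rat.smul_def, map_rat_smul, smul_eq_mul]
      rw [Derivation.sub_apply, c2 _ a h1, Derivation.smul_apply, e, smul_smul, h2, Rat.cast_mul,
        sub_eq_zero]
      congr 1
      ring))
  have e2 : (p' D.b : ℂ) = 1 := by
    have h1 := D.d.δ_Ex c1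
    have h2 := D.d.δ_Ex b3
    rw [map_sub, sub_eq_zero, h.vol.srf.prim] at h1 h2
    rw [e1, ← algebraMap_smul L, D.d.smul, Derivation.map_algebraMap, add_zero, ← h2,
      ← map_mul] at h1
    exact (mul_eq_right₀ h.vol.srf.ne).1 ((algebraMap ℂ L).injective h1).symm
  rw [e2, one_smul] at e1
  subst e1
  have b5 := (A.va_fx D.C).1 b2
  obtain ⟨y', d1, d2, d3⟩ := b5.eig (c := algebraMap ℂ L (r * D.b))
    (A.cst_fix.2 fun σ => by rw [map_mul, map_ratCast, hs.b]) c3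
    (c5.trans (Algebra.smul_def _ y))
  refine ⟨w', y', t, r, b5, b3, b4, fun l a ha => ⟨_, c2 l a ha⟩, d1, d2, c4,
    d3.trans (Algebra.smul_def _ y').symm, fun K h1 h2 => c6.1 K h1 ?_, c6.2⟩
  rw [← div_mul_cancel₀ y d2]
  refine mul_mem (h1 ?_) h2
  rw [M3H47.mem_cst, Derivation.leibniz_div, c5, d3, Algebra.smul_def (_ * _)]
  simp [mul_comm, mul_left_comm]

theorem starP_of (h : D.OK) (hp : D.Pt) (hs : A.Stab D) {u : L} {N : ℕ} (hO : P3.Ord D u N)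
    (hL : Lin D.S1) (k0 : Keep D Y) :
    ∃ v' y g, A.StarP D.d D.v D.b (Set.range D.x) u N v' y g := by
  have : CharZero L := charZero_of_injective_algebraMap (algebraMap ℂ L).injective
  obtain ⟨T, b1, b2⟩ := (A.va D.C).avg Y
  have k := keep_avg ⟨1, b1⟩ (k0.conj h hs)
  obtain ⟨w, y, t, r, a1, a2, a3, a4, a5, y0, r0, a6, a7, a8, a9⟩ :=
    exists_ss h hs hL k ((A.va_fx D.C).1 b2)
  generalize (T.card : ℂ)⁻¹ • ∑ τ ∈ T, (A.si τ).vf Y = X at k a3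
  have hx : ∀ l, w (D.x l) = 0 := fun l =>
    hp _ (IntermediateField.subset_adjoin _ _ (Or.inl ⟨l, rfl⟩)) w
  refine ⟨w, y, r⁻¹, inv_ne_zero r0, y0, a2, ?_, fun z => ?_, ?_, a1, a5, fun o hπ hK hy => ?_⟩
  · have hr' : (r : L) ≠ 0 := Rat.cast_ne_zero.2 r0
    rw [a6, Algebra.smul_def, map_mul, map_ratCast, Rat.cast_inv]
    field_simp
  · have := a7 ((Subfield.closure ({c | w c = 0} ∪ {y})).toIntermediateField fun c =>
      Subfield.subset_closure (Or.inl (w.map_algebraMap c)))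
      (fun c hc => Subfield.subset_closure (Or.inl hc)) (Subfield.subset_closure (Or.inr rfl))
    exact (this ▸ IntermediateField.mem_top : z ∈ Subfield.toIntermediateField _ _)
  · rintro _ ⟨l, rfl⟩
    exact hx l
  have ku : ∀ c, c ≠ 0 → w c = 0 → o.v c = 0 := fun c c0 e => by
    have h1 := (hK c e).resolve_left c0
    have h2 := (hK c⁻¹ (inv_mem (M3H47.mem_cst.2 e) :)).resolve_left (inv_ne_zero c0)
    rw [o.inv] at h2
    omega
  have eu : ∀ (a : L) (ρ : ℚ), a ≠ 0 → w a = (ρ * D.b) • a → o.v a = 0 := fun a ρ a0 e => by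
    have h1 := M3H47.eig_mul w (M3H47.eig_zpow w a0 e (ρ / r).den)
      (M3H47.eig_zpow w y0 a6 (-(ρ / r).num))
    have h2 : ((ρ / r).den : ℚ) * ρ + -(ρ / r).num * r = 0 := by
      rw [← Rat.mul_den_eq_num]
      field_simp
      ring
    have h3 : (((ρ / r).den : ℤ) : ℂ) * (ρ * D.b) + ((-(ρ / r).num : ℤ) : ℂ) * (r * D.b) = 0 := by
      have := congrArg (Rat.cast : ℚ → ℂ) h2
      push_cast at this ⊢
      linear_combination D.b * this
    rw [h3, zero_smul] at h1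
    have h4 := ku _ (mul_ne_zero (zpow_ne_zero _ a0) (zpow_ne_zero _ y0)) h1
    rw [o.mul _ _ (zpow_ne_zero _ a0) (zpow_ne_zero _ y0), v_zpow o a0, v_zpow o y0, hy, mul_zero,
      add_zero] at h4
    exact (mul_eq_zero.1 h4).resolve_left (Int.natCast_ne_zero.2 (ρ / r).den_nz)
  have un : ∀ (W W' : Submodule ℂ L) [FiniteDimensional ℂ W], (∀ a ∈ W, w a ∈ W) →
      (∀ a ∈ W, a ≠ 0 → o.v a = 0 → a ∈ W') → W ≤ W' := fun W W' _ h1 h2 =>
    gn_ind h1 fun l a h3 h4 => by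
      obtain ⟨ρ, e⟩ := a4 l a h4
      by_cases a0 : a = 0
      · exact a0 ▸ zero_mem _
      · exact h2 a h3 a0 (eu a ρ a0 e)
  have nc : NC o t := ⟨hK t a8, fun c hc => by
    have h1 := sub_ne_zero.2 (a9 c)
    have h2 := hc.resolve_left h1
    rw [ku _ h1 (by simp [a8])] at h2
    omega⟩
  have cv : Cv D.x o := ⟨hπ, fun l => hK _ (hx l), t, nc⟩
  have kw := fun e => have := hL.fin e; gn_keep a3 _ (k.kp e)
  have f0 : ∀ e, VS D.S1 e ≤ FS o 0 := fun e =>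
    have := hL.fin e
    un _ _ (kw e) fun a _ _ e => Or.inr e.ge
  by_cases hn : Null D.x D.S1 o
  · exfalso
    obtain ⟨s, hs, -⟩ := h.sem.dg1 o cv
    obtain ⟨e, P, hP, Q, hQ, q0, e1⟩ := hL.frac t
    have := hL.fin e
    let W := VS D.S1 e ⊓ (VS D.S1 e).comap (LinearMap.mulLeft ℂ t)
    have : FiniteDimensional ℂ W := Submodule.finiteDimensional_inf_left _ _
    refine q0 (un W ⊥ (fun a ha => ⟨kw e a ha.1, ?_⟩) (fun a ha a0 va => ?_)
      (show Q ∈ W from ⟨hQ, ?_⟩))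
    · have := kw e _ ha.2
      change t * w a ∈ VS D.S1 e
      rwa [LinearMap.mulLeft_apply, Derivation.leibniz, a8, smul_zero, add_zero] at this
    · have s0 := pow_ne_zero e hs.2.1
      have h1 : Cs o (a / s ^ e) := hL.cst o s hπ hs (hn.2 s hs) e a ha.1
      have h2 : Cs o (t * a / s ^ e) := hL.cst o s hπ hs (hn.2 s hs) e _ ha.2
      obtain ⟨c, h3⟩ := h2.mul (h1.inv (div_ne_zero a0 s0) (by
        rw [inv_div, div_eq_mul_inv]
        exact M3RESID.F_mul0 (f0 e (VS_pow hs.1 e)) (Or.inr (by rw [o.inv, va]; rfl))))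
      rw [show t * a / s ^ e * (a / s ^ e)⁻¹ = t by field_simp] at h3
      exact absurd h3 (nc.2 c)
    · change t * Q ∈ VS D.S1 e
      rwa [e1, div_mul_cancel₀ _ q0]
  rcases k.lg o cv hn with lg | ⟨h1, h2⟩
  · exfalso
    obtain ⟨π, hπ⟩ := hπ
    obtain ⟨e, P, hP, Q, hQ, q0, e1⟩ := hL.frac π
    have := hL.fin e
    let W := VS D.S1 e ⊓ FS o 1
    have : FiniteDimensional ℂ W := Submodule.finiteDimensional_inf_left _ _
    have π0 : π ≠ 0 := fun e => by simp [e, o.zero] at hπ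
    have h1 : P = π * Q := by rw [e1, div_mul_cancel₀ _ q0]
    refine mul_ne_zero π0 q0 (un W ⊥ (gn_keep a3 W fun a ha => ⟨k.kp e a ha.1, lg 1 a ha.2⟩)
      (fun a ha a0 va => ?_) (show π * Q ∈ W from ⟨h1 ▸ hP, ?_⟩))
    · have := Or.resolve_left ha.2 a0
      omega
    · exact F_mul0' (Or.inr hπ.ge) (f0 e hQ)
  · exact hO o cv hn h1 h2

theorem lvc : P3.LVc := fun _ _ _ _ _ _ _ _ _ _ _ h hs hO ⟨_, hp, h1⟩ =>
  let ⟨hL, _, k⟩ := keepC h hp h1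
  starP_of h hp hs hO hL k

theorem lvz : P3.LVz := fun _ _ _ _ _ _ _ _ _ _ _ h hs hO ⟨ht, hC, hZ, hp⟩ =>
  let ⟨hL, _, k⟩ := keepZ h ht hC hZ hp
  starP_of h hp hs hO hL k

end

end Pool.Agent.MP_5d9b3c_ag.P3V
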