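import Pool.Agent.MP_5d9b3c_ag.P3V.Lin
import Pool.Agent.MP_ee8c61_ag.M3S.All

/-!
A primitive that keeps the sections of the big system and is logarithmic at the special curves.
-/

namespace Pool.Agent.MP_5d9b3c_ag.P3V

open Pool.Agent.MP_ee8c61_ag M3 M3RESID M3F M3S M3SB M3J Pool.Agent.MP_96693b_ag.RS
  Pool.Agent.MP_cce4c9_lc.H87 WithZero Finset

noncomputable section

variable {L : Type} [Field L] [Algebra ℂ L] {D : SD L} {M : Model L 2}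

/-- The field `X` is a primitive that keeps the sections and is logarithmic at special curves. -/
structure Keep (D : SD L) (X : VF L) : Prop where
  ex : D.v - X ∈ D.d.Ex
  kp : ∀ e, ∀ g ∈ VS D.S1 e, X g ∈ VS D.S1 e
  lg : ∀ Γ, Cv D.x Γ → ¬Null D.x D.S1 Γ → X ∈ LV Γ 0 ∨ ((∀ j, D.β j Γ = 0) ∧ D.ex Γ = 1)

theorem exists_ad' (h : D.OK) (hp : D.Pt) {R : Finset L} (hR : ∃ r ∈ R, r ≠ 0) :
    ∃ (M : Model L 2) (J : Finset (Crv M)) (B : D.A → Dr M) (S : Finset (Crv M)),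
      Tr D M B S ∧ SncC (J : Set (Crv M)) ∧ (∀ p, NoB R (M.loc p).O) ∧
      (∀ p, NoB D.S1 (M.loc p).O) ∧
      ∀ Γ ∉ J, D.ex (oC Γ) = 1 ∧ (∀ j, D.β j (oC Γ) = 0) ∧ M3J.Reg (oC Γ) D.v := by
  classical
  obtain ⟨r, r1, r0⟩ := hR
  obtain ⟨s, s1, s0⟩ : ∃ s ∈ D.S1, s ≠ 0 := by
    by_contra! hn
    have : RF D.x D.S1 ≤ cst {D.C.D 0} := IntermediateField.adjoin_le_iff.2 (by
      rintro _ (⟨l, rfl⟩ | ⟨s, hs, s', hs', rfl⟩) _ e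
      · exact hp _ (IntermediateField.subset_adjoin _ _ (Or.inl ⟨l, rfl⟩)) _
      · rw [hn s hs, div_zero, map_zero])
    have := DFunLike.congr_fun (h.big (D.C.D 0) fun g hg => this hg _ rfl) (D.C.z 0)
    simp [D.C.dual] at this
  obtain ⟨M, J, B, S, t, hs, n, hJ⟩ := exists_ad h hp (R := image₂ (· * ·) R D.S1)
    ⟨r * s, mem_image₂_of_mem r1 s1, mul_ne_zero r0 s0⟩
  refine ⟨M, J, B, S, t, hs, fun p => ?_, fun p => ?_, hJ⟩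
  all_goals
    obtain ⟨_, a1, a2, a3⟩ := n p
    obtain ⟨a, ha, c, hc, rfl⟩ := mem_image₂.1 a1
  · exact ⟨a, ha, left_ne_zero_of_mul a2, fun x hx => by
      rw [← mul_div_mul_right x a (right_ne_zero_of_mul a2)]
      exact a3 _ (mem_image₂_of_mem hx hc)⟩
  · exact ⟨c, hc, right_ne_zero_of_mul a2, fun x hx => by
      rw [← mul_div_mul_left x c (left_ne_zero_of_mul a2)]
      exact a3 _ (mem_image₂_of_mem ha hx)⟩

theorem keep_of (h : D.OK) (hp : D.Pt) {J S : Finset (Crv M)} {B : D.A → Dr M}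
    (t : Tr D M B S) (hs : SncC (J : Set (Crv M))) (n1 : ∀ p, NoB D.S1 (M.loc p).O)
    (hJ : ∀ Γ ∉ J, D.ex (oC Γ) = 1 ∧ (∀ j, D.β j (oC Γ) = 0) ∧ M3J.Reg (oC Γ) D.v)
    {r : D.A → ℚ} (hr : ∀ j, 0 < r j) (nQ : Nef (∑ j, (r j : ℝ) • B j))
    (bQ : 0 < II M (∑ j, (r j : ℝ) • B j) (∑ j, (r j : ℝ) • B j))
    (nA : Nef (-∑ j, (D.al j : ℝ) • B j))
    (hP : (∀ Γ : Crv M, D.α (oC Γ) ≤ 0) ∨
      Prim M D.d D.C D.v fun Γ => ⌈D.α (oC Γ) - D.ex (oC Γ)⌉) : Lin D.S1 ∧ ∃ X, Keep D X := by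
  have hM := thmFnd _ M
  obtain ⟨Θ, hΘ⟩ := exists_th hM.toFinS n1
  have hm : (0 : ℝ) < D.m := Nat.cast_pos.2 h.sem.m
  have e1 : Θ = (D.m : ℝ) • ∑ j, ((D.al j + D.t1 * D.h j : ℚ) : ℝ) • B j := by
    ext Γ
    rw [Finsupp.smul_apply, sum_co t.co, th_dg hΘ (h.sem.dg1 _ (t.cv Γ)), Rat.cast_mul,
      Rat.cast_natCast, smul_eq_mul]
    rfl
  have sg := fun Γ => h.sgn _ (t.cv Γ)
  obtain ⟨u, hu, h1⟩ := vqG hM (thmOK _ M) (thmKVN _ M) h.vol.srf (a := fun Γ => D.ex (oC Γ))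
    (α := fun Γ => D.α (oC Γ)) (Q := fun Γ => ∑ j, r j * D.β j (oC Γ))
    (fun Γ => h.vol.exp _ (t.cv Γ)) hs
    (fun Γ hΓ => ⟨(hJ Γ hΓ).1, by simp [SD.α, (hJ Γ hΓ).2.1], by simp [(hJ Γ hΓ).2.1]⟩)
    (fun Γ => (sg Γ).2.1) (fun Γ => sum_nonneg fun j _ => mul_nonneg (hr j).le ((sg Γ).1 j))
    (fun Γ e => by
      obtain ⟨j, hj⟩ := (sg Γ).2.2 e
      exact sum_pos' (fun j _ => mul_nonneg (hr j).le ((sg Γ).1 j))
        ⟨j, mem_univ _, mul_pos (hr j) hj⟩)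
    (sum_co t.co D.al) (sum_co t.co r) nA nQ bQ (hP.imp_left fun a => ⟨a, fun Γ hΓ => (hJ Γ hΓ).2.2⟩)
  have key : ∀ Γ : Crv M, ¬Null D.x D.S1 (oC Γ) → D.v - u ∈ LV (oC Γ) 0 ∨
      ((∀ j, D.β j (oC Γ) = 0) ∧ D.ex (oC Γ) = 1 ∧ M3J.Reg (oC Γ) (D.v - u)) := fun Γ hΓ => by
    rcases h.kvl _ (t.cv Γ) hΓ with ⟨j, hj⟩ | ⟨a1, a2⟩
    · exact Or.inl ((h1 Γ).1 hj.1)
    · exact ((h1 Γ).2 (by simp [SD.α, a1]) (by simp [a1]) a2).imp_right fun a => ⟨a1, a⟩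
  refine ⟨lin_of hM (thmOK _ M) hΘ ?_, D.v - u, by simpa using hu, fun e g hg => ?_,
    fun Γ c hΓ => ?_⟩
  · have := t.big
    rw [e1, map_smul, map_smul, LinearMap.smul_apply, smul_eq_mul, smul_eq_mul]
    positivity
  · rw [vs_eq hΘ hM.toB1] at hg ⊢
    refine (mem_H0_off hM t.neg (fun G hG => ?_) _).2 fun Γ hΓ => ?_
    · rw [e1, map_smul, map_smul, LinearMap.smul_apply, LinearMap.smul_apply, I_sum]
      simp [t.orth _ G hG]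
    have h2 : g ∈ (oC Γ).F (-⌊((e : ℝ) • Θ) Γ⌋) := mem_dvP.2 (by rw [neg_neg]; exact hg Γ)
    rw [← neg_neg ⌊_⌋, ← mem_dvP]
    rcases key Γ (t.nn Γ hΓ) with a | ⟨a1, -, a2⟩
    · exact M3J.F_of_eq (a _ g h2) (add_zero _)
    · have : ((e : ℝ) • Θ) Γ = 0 := by
        rw [e1, Finsupp.smul_apply, Finsupp.smul_apply, sum_co t.co]
        simp [a1]
      rw [this, Int.floor_zero, neg_zero] at h2 ⊢
      exact a2 g h2
  · obtain ⟨Γ, rfl⟩ := crv_of hΘ hM.toB1 c.sur fun hn => hΓ ⟨fun l => not_nc (pt_x M hp l), hn⟩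
    exact (key Γ hΓ).imp_right fun a => ⟨a.1, a.2.1⟩

theorem keepC (h : D.OK) (hp : D.Pt) (hO : D.One) : Lin D.S1 ∧ ∃ X, Keep D X := by
  classical
  obtain ⟨M, J, B, S, t, hs, -, nS, hJ⟩ := exists_ad' h hp (R := {1}) ⟨1, by simp, one_ne_zero⟩
  have hB : ∀ j, 0 ≤ B j := fun j Γ => by
    change (0 : ℝ) ≤ B j Γ
    rw [t.co]
    exact_mod_cast (h.sgn _ (t.cv Γ)).1 j
  have z : ∀ k, B k ≠ 0 → ∃ Γ ∉ S, D.β k (oC Γ) ≠ 0 := fun k hk => by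
    by_contra! hn
    have h1 : M3SN.Sup S (B k) := fun Γ hΓ => by rw [t.co, hn Γ hΓ, Rat.cast_zero]
    exact (t.neg _ h1 hk).ne (M3SN.orth_of_sup (t.orth k) h1)
  obtain ⟨j, hj⟩ : ∃ j, B j ≠ 0 := by
    by_contra! hn
    simpa [hn] using t.big
  have e : ∀ r : D.A → ℚ, ∑ k, (r k : ℝ) • B k = (r j : ℝ) • B j := fun r =>
    sum_eq_single j (fun k _ hk => by
      by_contra h1
      obtain ⟨Γ, a1, a2⟩ := z k (right_ne_zero_of_smul h1)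
      obtain ⟨Γ', b1, b2⟩ := z j hj
      exact hk (hO k j _ _ (t.cv Γ) (t.nn Γ a1) a2 (t.cv Γ') (t.nn Γ' b1) b2)) (by simp)
  have n1 := t.nef
  have b1 := t.big
  have t0 := M3SN.triv_of_cv (I := II M) t.triv (B j)
  rw [e] at n1 b1 t0
  have n2 := M3SN.Nef.eff (I := II M) n1 (hB j)
  simp only [map_smul, LinearMap.smul_apply, smul_eq_mul] at b1 t0 n2
  set x : ℝ := ((D.al j + D.t1 * D.h j : ℚ) : ℝ) with hx
  have x0 : x ≠ 0 := fun e => by simp [e] at b1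
  have b2 : 0 < II M (B j) (B j) := by
    rw [← mul_assoc] at b1
    exact (mul_pos_iff_of_pos_left (mul_self_pos.2 x0)).1 b1
  have x1 : 0 < x := lt_of_le_of_ne (nonneg_of_mul_nonneg_left n2 b2) x0.symm
  have x2 : 0 < D.al j + D.t1 * D.h j := by rw [hx] at x1; exact_mod_cast x1
  have y0 : D.al j + D.t0 * D.h j = 0 := by
    exact_mod_cast (mul_eq_zero.1 t0).resolve_right b2.ne'
  have h0 : 0 < D.h j := (mul_pos_iff_of_pos_left (sub_pos.2 h.sem.t1)).1 (by linarith)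
  have a0 : D.al j ≤ 0 := by linarith [mul_nonneg h.sem.t0 h0.le]
  have a1 : (D.al j : ℝ) ≤ 0 := by exact_mod_cast a0
  have n3 : Nef (B j) := by
    have := M3SN.Nef.smul (I := II M) n1 (inv_nonneg.2 x1.le)
    rwa [inv_smul_smul₀ x0] at this
  refine keep_of h hp t hs nS hJ (r := fun _ => 1) (fun _ => one_pos) ?_ ?_ ?_ (Or.inl fun Γ => ?_)
  · rw [e]; simpa using n3
  · rw [e]; simpa using b2
  · rw [e, ← neg_smul]
    exact M3SN.Nef.smul (I := II M) n3 (neg_nonneg.2 a1)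
  · have h1 := sum_co t.co D.al Γ
    rw [e, Finsupp.smul_apply, smul_eq_mul] at h1
    have h2 : ((D.α (oC Γ) : ℚ) : ℝ) ≤ 0 := h1 ▸ mul_nonpos_of_nonpos_of_nonneg a1 (hB j Γ)
    exact_mod_cast h2

theorem keepZ (h : D.OK) (ht : D.t0 = 0) (hC : D.CC) (hZ : D.Zc) (hp : D.Pt) :
    Lin D.S1 ∧ ∃ X, Keep D X := by
  obtain ⟨R, θ, hR, hC⟩ := hC
  obtain ⟨M, J, B, S, t, hs, nR, nS, hJ⟩ := exists_ad' h hp hR
  have hM := thmFnd _ M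
  have hB : ∀ j, 0 ≤ B j := fun j Γ => by
    change (0 : ℝ) ≤ B j Γ
    rw [t.co]
    exact_mod_cast (h.sgn _ (t.cv Γ)).1 j
  have tr := t.triv
  have po := t.pole
  simp only [ht, zero_mul, add_zero] at tr po
  obtain ⟨q, q0, q1⟩ := nef_q (I := II M) ⟨hM.sym, hM.off⟩ B hB D.al tr fun Γ => by
    by_cases hΓ : Γ ∈ S
    · exact Or.inl fun k => t.orth k Γ hΓ
    rcases h.kvl _ (t.cv Γ) (t.nn Γ hΓ) with ⟨j, hj⟩ | ⟨a1, -⟩
    · refine Or.inr (Or.inr ⟨j, fun k hk => by rw [t.co, hj.2.2 k hk, Rat.cast_zero], fun e => ?_⟩)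
      obtain ⟨-, s, a1, a2⟩ := hZ _ j (t.cv Γ) (t.nn Γ hΓ) hj e
      obtain ⟨C', b1, b2, b3⟩ := meet_of_nonconst hM.toB3 Γ a2.1 a2.2
      exact ⟨C', b1, po s a1 C' b2, b3⟩
    · exact Or.inr (Or.inl fun k => by rw [t.co, a1 k, Rat.cast_zero])
  obtain ⟨r, r0, r1, r2⟩ := big_q (I := II M) (thmOK _ M).tools.kle B q0 q1 t.nef t.big
  refine keep_of h hp t hs nS hJ r0 r1 r2 (fun Γ => ?_) (Or.inr ?_)
  · rw [map_neg, LinearMap.neg_apply, tr, neg_zero]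
  refine prim_of_cc (ι := R) (↑) (fun i => θ i) (fun p => ?_) (fun i Γ i0 hi => ?_)
    fun i i' Γ i0 i0' hi hi' => ?_
  · obtain ⟨s, a1, a2, a3⟩ := nR p
    exact ⟨⟨s, a1⟩, a2, fun j => a3 j j.2⟩
  · obtain ⟨n, a1, a2⟩ := (hC _ (t.cv Γ) i ⟨i.2, i0, fun s hs => hi ⟨s, hs⟩⟩).1
    exact M3J.LV_anti (Int.ceil_le.2 a1) a2
  · by_cases e : θ i - θ i' = 0
    · rw [e]; exact zero_mem _
    have a1 := ((hC _ (t.cv Γ) i ⟨i.2, i0, fun s hs => hi ⟨s, hs⟩⟩).2 i'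
      ⟨i'.2, i0', fun s hs => hi' ⟨s, hs⟩⟩).resolve_left (sub_ne_zero.1 e)
    have a2 := exp_eq hM.toB2 h.vol.q0 h.vol.ψ0 h.vol.rat (h.vol.exp _ (t.cv Γ))
    obtain ⟨k, hk⟩ := hM.kZ Γ
    have hρ := rho_ne hM.toB2 D.C
    have hq : (0 : ℝ) < D.q := Nat.cast_pos.2 h.vol.q0
    have a3 : (D.q : ℝ) * D.α (oC Γ) ≤ D.q * Γ.1.ord (θ i - θ i') + Γ.1.ord D.ψ := by
      exact_mod_cast a1
    have a4 : ⌈D.α (oC Γ) - D.ex (oC Γ)⌉ ≤ Γ.1.ord (θ i - θ i') + Γ.1.ord (rho D.C) - k - 1 := by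
      rw [Int.ceil_le, ← Rat.cast_le (K := ℝ)]
      push_cast
      have a5 : (D.α (oC Γ) : ℝ) - Γ.1.ord (θ i - θ i') ≤ Γ.1.ord D.ψ / D.q := by
        rw [le_div_iff₀ hq]
        linarith
      linarith
    rw [mem_LB_iff hM.toB2, Γ.1.val_le_exp (Γ.1.val_ne (mul_ne_zero e hρ)),
      Γ.1.ord_mul (Γ.1.val_ne e) (Γ.1.val_ne hρ), neg_le, Int.le_floor, hk]
    exact_mod_cast (by omega)

end

end Pool.Agent.MP_5d9b3c_ag.P3V
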