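import Pool.Agent.MP_5d9b3c_ag.P3V.Pot

/-!
The sections of the multiples of a linear system, described by valuation rings.
-/

namespace Pool.Agent.MP_5d9b3c_ag.P3V

open Pool.Agent.MP_ee8c61_ag M3 M3RESID M3F M3S M3SB M3J Pool.Agent.MP_96693b_ag.RS
  Pool.Agent.MP_cce4c9_lc.H87 WithZero

noncomputable section

variable {K : Type} [Field K] [Algebra ℂ K]

/-- The sections of the multiple `e` of the system generated by `S`. -/
def VS (S : Finset K) (e : ℕ) : Submodule ℂ K where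
  carrier := {g | ∀ O : ValuationSubring K, (∀ c : ℂ, algebraMap ℂ K c ∈ O) → ∀ s ∈ S, s ≠ 0 →
    (∀ s' ∈ S, s' / s ∈ O) → g / s ^ e ∈ O}
  zero_mem' := fun O _ s _ _ _ => by simp
  add_mem' := fun {a b} ha hb O h1 s h2 h3 h4 => by
    rw [add_div]
    exact add_mem (ha O h1 s h2 h3 h4) (hb O h1 s h2 h3 h4)
  smul_mem' := fun c a ha O h1 s h2 h3 h4 => by
    rw [Algebra.smul_def, mul_div_assoc]
    exact mul_mem (h1 c) (ha O h1 s h2 h3 h4)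

theorem VS_mul {S : Finset K} {e e' : ℕ} {a b : K} (ha : a ∈ VS S e) (hb : b ∈ VS S e') :
    a * b ∈ VS S (e + e') := fun O h1 s h2 h3 h4 => by
  rw [pow_add, mul_div_mul_comm]
  exact mul_mem (ha O h1 s h2 h3 h4) (hb O h1 s h2 h3 h4)

theorem VS_pow {S : Finset K} {s : K} (hs : s ∈ S) (e : ℕ) : s ^ e ∈ VS S e :=
  fun O _ t _ _ h4 => by
    rw [← div_pow]
    exact pow_mem (h4 s hs) e

theorem VS_F {S : Finset K} {e : ℕ} {g s : K} {o : DV K} (hg : g ∈ VS S e) (hs : GnS S o s) :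
    g / s ^ e ∈ o.F 0 := hg o.O (cst_F o) s hs.1 hs.2.1 hs.2.2

/-- The properties of a big system. -/
structure Lin (S : Finset K) : Prop where
  fin : ∀ e, FiniteDimensional ℂ (VS S e)
  top : ∃ k, IntermediateField.adjoin ℂ (VS S k : Set K) = ⊤
  frac : ∀ z : K, ∃ e, ∃ P ∈ VS S e, ∃ Q ∈ VS S e, Q ≠ 0 ∧ z = P / Q
  cst : ∀ (o : DV K) s, (∃ π, o.v π = 1) → GnS S o s → (∀ s' ∈ S, ¬NC o (s' / s)) → ∀ e,
    ∀ g ∈ VS S e, ∃ c : ℂ, g / s ^ e - algebraMap ℂ K c ∈ o.F 1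

variable {M : Model K 2}

theorem exists_pt (hM : B1 M) (O : ValuationSubring K) (h : ∀ c : ℂ, algebraMap ℂ K c ∈ O) :
    ∃ p : M.P, ∀ g ∈ (M.loc p).O, g ∈ O := by
  obtain ⟨u, hu, u0, h1⟩ := hM.ch O h
  obtain ⟨p, -, h2, -⟩ := hM.cen O u hu u0 h1 1 (one_mem _) one_ne_zero (by simp)
  exact ⟨p, h2⟩

/-- A normalised valuation is a curve of the model or is centred at a point. -/
theorem cls (hM : B1 M) {o : DV K} (hπ : ∃ π, o.v π = 1) : (∃ Γ : Crv M, oC Γ = o) ∨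
    ∃ p : M.P, ∀ g ∈ (M.loc p).O, g - algebraMap ℂ K ((M.loc p).ev g) ∈ o.F 1 := by
  obtain ⟨P0, e0⟩ := M3F.exists_place (K₀ := ⊥) (o := o) ⟨hπ, fun x hx => by
    obtain ⟨c, rfl⟩ := IntermediateField.mem_bot.1 hx
    exact cst_F o c⟩
  let P : Place ℂ K := ⟨P0.val, P0.surj, fun a ha => by
    have := P0.triv (algebraMap ℂ _ a) (by simpa using ha)
    rwa [← IsScalarTower.algebraMap_apply] at this⟩
  have e : dvP P = o := e0
  obtain ⟨p, hp⟩ := exists_pt hM o.O (cst_F o)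
  have h1 : ∀ g ∈ (M.loc p).O, P.val g ≤ 1 := fun g hg => mem_dvP0.1 (e ▸ hp g hg)
  by_cases h : ∃ g ∈ (M.loc p).O, (M.loc p).ev g = 0 ∧ P.val g = 1
  · exact Or.inl ⟨⟨P, p, h1, h⟩, e⟩
  push Not at h
  refine Or.inr ⟨p, fun g hg => ?_⟩
  have h2 := (M.loc p).O.algebraMap_mem ((M.loc p).ev g)
  rw [← e, F1_iff]
  exact lt_of_le_of_ne (h1 _ (sub_mem hg h2)) (h _ (sub_mem hg h2) (by
    rw [Loc.ev_sub hg h2, (M.loc p).ev_alg, sub_self]))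

/-- Functions with a constant value along a valuation. -/
def Cs (o : DV K) (g : K) : Prop := ∃ c : ℂ, g - algebraMap ℂ K c ∈ o.F 1

theorem Cs.F0 {o : DV K} {g : K} (h : Cs o g) : g ∈ o.F 0 := by
  obtain ⟨c, hc⟩ := h
  simpa using add_mem (o.F_anti zero_le_one hc) (cst_F o c)

theorem Cs.mul {o : DV K} {g g' : K} (h : Cs o g) (h' : Cs o g') : Cs o (g * g') := by
  have h0 := h'.F0
  obtain ⟨c, hc⟩ := h
  obtain ⟨c', hc'⟩ := h'
  refine ⟨c * c', ?_⟩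
  have := add_mem (F_mul0' hc h0) (M3RESID.F_mul0 (cst_F o c) hc')
  rwa [show (g - algebraMap ℂ K c) * g' + algebraMap ℂ K c * (g' - algebraMap ℂ K c') =
    g * g' - algebraMap ℂ K (c * c') by rw [map_mul]; ring] at this

theorem Cs.pow {o : DV K} {g : K} (h : Cs o g) (n : ℕ) : Cs o (g ^ n) := by
  induction n with
  | zero => exact ⟨1, by simp⟩
  | succ n ih => rw [pow_succ]; exact ih.mul h

theorem cs_of {o : DV K} {g : K} (h0 : g ∈ o.F 0) (h : ¬NC o g) : Cs o g := by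
  by_contra h1
  exact h ⟨h0, fun c hc => h1 ⟨c, hc⟩⟩

theorem Cs.inv {o : DV K} {g : K} (h : Cs o g) (g0 : g ≠ 0) (h' : g⁻¹ ∈ o.F 0) : Cs o g⁻¹ := by
  obtain ⟨c, hc⟩ := h
  have c0 : c ≠ 0 := by
    rintro rfl
    have := F_mul0' hc h'
    rw [map_zero, sub_zero, mul_inv_cancel₀ g0, ← map_one (algebraMap ℂ K)] at this
    exact one_ne_zero (cst_F1 this)
  refine ⟨c⁻¹, ?_⟩
  have := neg_mem (F_mul0' (F_mul0' hc h') (cst_F o c⁻¹))
  have c1 : algebraMap ℂ K c ≠ 0 := (map_ne_zero _).2 c0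
  rwa [show -((g - algebraMap ℂ K c) * g⁻¹ * algebraMap ℂ K c⁻¹) = g⁻¹ - algebraMap ℂ K c⁻¹ by
    rw [map_inv₀]; field_simp; ring] at this

section Th

variable {T : Finset K} {D : Dr M} (h : IsTh T D)
include h

theorem th_loc (hM : B1 M) (p : M.P) : ∃ s ∈ T, s ≠ 0 ∧ (∀ t ∈ T, t / s ∈ (M.loc p).O) ∧
    ∀ e : ℕ, ∀ g ∈ H0 ((e : ℝ) • D), g / s ^ e ∈ (M.loc p).O := by
  obtain ⟨s, hs, e⟩ := h.gen p
  have h2 : ∀ e : ℕ, ∀ g ∈ H0 ((e : ℝ) • D), g / s ^ e ∈ (M.loc p).O := fun n g hg => by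
    have h1 : Eqn ((n : ℝ) • D) p (s ^ n)⁻¹ := by simpa using M3V.eq_zpow e (-n)
    rw [div_eq_mul_inv]
    exact (hM.memL _ p _ h1 g).1 fun C _ => hg C
  exact ⟨s, hs, e.1, fun t ht => by simpa using h2 1 t (by simpa using h.mem t ht), h2⟩

theorem th_gns (Γ : Crv M) : ∃ s, GnS T (oC Γ) s ∧ (Γ.1.ord s : ℝ) = -D Γ := by
  obtain ⟨s, hs, s0, e⟩ := h.ex Γ
  refine ⟨s, ⟨hs, s0, fun t ht => ?_⟩, e⟩
  by_cases t0 : t = 0
  · simp [t0]
  have h1 := h.le ht t0 Γ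
  rw [← e, Int.cast_le] at h1
  refine Or.inr ?_
  rw [dvP_v, div_eq_mul_inv, Γ.1.ord_mul (Γ.1.val_ne t0) (Γ.1.val_ne (inv_ne_zero s0)),
    Γ.1.ord_inv]
  omega

theorem vs_eq (hM : B1 M) (e : ℕ) : VS T e = H0 ((e : ℝ) • D) := by
  ext g
  refine ⟨fun hg => ?_, fun hg O h1 s hs s0 h2 => ?_⟩
  · by_cases g0 : g = 0
    · exact g0 ▸ zero_mem _
    refine (mem_H0 g0).2 fun Γ => ?_
    obtain ⟨s, hs, e1⟩ := th_gns h Γ
    have h1 := ord_le (pow_ne_zero e hs.2.1) g0 (mem_dvP0.1 (VS_F hg hs))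
    rw [Γ.1.ord_pow] at h1
    have h2 : (e : ℝ) * Γ.1.ord s ≤ Γ.1.ord g := by exact_mod_cast h1
    rw [e1] at h2
    rw [Finsupp.smul_apply, smul_eq_mul]
    linarith
  · obtain ⟨p, hp⟩ := exists_pt hM O h1
    obtain ⟨t, ht, t0, -, h3⟩ := th_loc h hM p
    rw [show g / s ^ e = g / t ^ e * (t / s) ^ e by rw [div_pow]; field_simp]
    exact mul_mem (hp _ (h3 e g hg)) (pow_mem (h2 t ht) e)

theorem vs_cst (hM : B2 M) {o : DV K} {s : K} (hπ : ∃ π, o.v π = 1) (hs : GnS T o s)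
    (hn : ∀ s' ∈ T, ¬NC o (s' / s)) {e : ℕ} {g : K} (hg : g ∈ VS T e) : Cs o (g / s ^ e) := by
  rw [vs_eq h hM.toB1] at hg
  have s0 := hs.2.1
  rcases cls hM.toB1 hπ with ⟨Γ, rfl⟩ | ⟨p, hp⟩
  · obtain ⟨c, hc⟩ := const_on hM (Γ := Γ) (g := g / s ^ e) fun p hp => by
      obtain ⟨t, ht, t0, h1, h2⟩ := th_loc h hM.toB1 p
      have h3 := h1 s hs.1
      obtain ⟨c, h4⟩ := (cs_of (hs.2.2 t ht) (hn t ht)).inv (div_ne_zero t0 s0)
        (by rw [inv_div]; exact mem_dvP0.2 (hp _ h3))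
      rw [inv_div] at h4
      have h5 := (M.loc p).O.algebraMap_mem c
      have h6 := hM.evz Γ p hp _ (sub_mem h3 h5) (F1_iff.1 h4)
      rw [Loc.ev_sub h3 h5, (M.loc p).ev_alg, sub_eq_zero] at h6
      have h7 : (M.loc p).ev (s / t) ≠ 0 := by
        rintro h7
        rw [← h6, h7, map_zero, sub_zero] at h4
        have := F_mul0' h4 (hs.2.2 t ht)
        rw [div_mul_div_cancel₀ t0, div_self s0, ← map_one (algebraMap ℂ K)] at this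
        exact one_ne_zero (cst_F1 this)
      have h8 : t / s ∈ (M.loc p).O := hM.hart p _ fun C hC => by
        rw [← inv_div, map_inv₀, (hM.unit p _).1 h7 C hC, inv_one]
      rw [show g / s ^ e = g / t ^ e * (t / s) ^ e by rw [div_pow]; field_simp]
      exact mul_mem (h2 e g hg) (pow_mem h8 e)
    exact ⟨c, F1_iff.2 hc⟩
  · obtain ⟨t, ht, t0, -, h2⟩ := th_loc h hM.toB1 p
    rw [show g / s ^ e = g / t ^ e * (t / s) ^ e by rw [div_pow]; field_simp]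
    exact Cs.mul ⟨_, hp _ (h2 e g hg)⟩ ((cs_of (hs.2.2 t ht) (hn t ht)).pow e)

/-- A valuation along which some ratio is not constant is a curve of the model. -/
theorem crv_of (hM : B1 M) {o : DV K} (hπ : ∃ π, o.v π = 1)
    (hn : ¬∀ s, GnS T o s → ∀ s' ∈ T, ¬NC o (s' / s)) : ∃ Γ : Crv M, oC Γ = o := by
  refine (cls hM hπ).resolve_right fun ⟨p, hp⟩ => hn fun s hs s' hs' h1 => ?_
  obtain ⟨t, ht, t0, h2, -⟩ := th_loc h hM p
  have h3 : Cs o (s / t)⁻¹ := Cs.inv ⟨_, hp _ (h2 s hs.1)⟩ (div_ne_zero hs.2.1 t0)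
    (by rw [inv_div]; exact hs.2.2 t ht)
  obtain ⟨c, hc⟩ := Cs.mul ⟨_, hp _ (h2 s' hs')⟩ h3
  rw [inv_div, div_mul_div_cancel₀ t0] at hc
  exact h1.2 c hc

end Th

theorem exists_gen' (hM : Fnd M) (hO : (toNS hM.toFinS).OK) {D : Dr M} (h1 : Nef D)
    (h2 : 0 < II M D D) : ∃ (k : ℕ) (g : K), g ≠ 0 ∧ ∀ a ∈ M.U, g * a ∈ H0 ((k : ℝ) • D) := by
  have hw : 0 < II M D (wD M) := lt_of_le_of_ne (hO.tools.nw D h1).1 fun e =>
    h2.ne' ((hO.tools.nw D h1).2 e.symm D)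
  have ww := ROK.ww hM
  obtain ⟨n, hn⟩ := exists_nat_gt (max (2 * II M D (wD M) / II M D D)
    (II M (wD M) (wD M) / II M D (wD M)))
  rw [max_lt_iff, div_lt_iff₀ h2, div_lt_iff₀ hw] at hn
  have n0 : (0 : ℝ) < n := (mul_pos_iff_of_pos_right hw).1 (ww.trans hn.2)
  obtain ⟨m, f, m0, f0, hf⟩ := hO.tools.big ((n : ℝ) • D - wD M) (by
    change 0 < II M _ _
    simp only [map_sub, map_smul, LinearMap.sub_apply, LinearMap.smul_apply, smul_eq_mul,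
      hM.sym (wD M) D]
    nlinarith [mul_pos n0 (sub_pos.2 hn.1)]) (by
    change 0 < II M _ (wD M)
    simp only [map_sub, map_smul, LinearMap.sub_apply, LinearMap.smul_apply, smul_eq_mul]
    linarith [hn.2])
  obtain ⟨m, rfl⟩ : ∃ k, m = k + 1 := ⟨m - 1, by omega⟩
  obtain ⟨u, hu, u0⟩ := M.nz
  have g0 : f * u ^ m ≠ 0 := mul_ne_zero f0 (pow_ne_zero _ u0)
  refine ⟨(m + 1) * n, _, g0, fun a ha => ?_⟩
  by_cases a0 : a = 0
  · simp [a0]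
  refine (mem_H0 (mul_ne_zero g0 a0)).2 fun Γ => ?_
  have a1 := (mem_H0 a0).1 (hM.wsec a ha) Γ
  have a2 := mul_nonneg (Nat.cast_nonneg (α := ℝ) m) ((mem_H0 u0).1 (hM.wsec u hu) Γ)
  have a3 : (0 : ℝ) ≤ dvr M f Γ + ((m + 1 : ℕ) : ℝ) * (n * D Γ - wD M Γ) := hf Γ
  rw [hM.dva] at a3
  rw [Γ.1.ord_mul (Γ.1.val_ne g0) (Γ.1.val_ne a0),
    Γ.1.ord_mul (Γ.1.val_ne f0) (Γ.1.val_ne (pow_ne_zero _ u0)), Γ.1.ord_pow,
    Finsupp.smul_apply, smul_eq_mul]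
  push_cast at a3 ⊢
  linarith

/-- Quotients of sections of the same degree. -/
def Rt (S : Finset K) {s : K} (hs : s ∈ S) (s0 : s ≠ 0) : IntermediateField ℂ K where
  carrier := {z | ∃ e, ∃ P ∈ VS S e, ∃ Q ∈ VS S e, Q ≠ 0 ∧ z = P / Q}
  mul_mem' := by
    rintro _ _ ⟨e, P, hP, Q, hQ, q0, rfl⟩ ⟨e', P', hP', Q', hQ', q0', rfl⟩
    exact ⟨_, _, VS_mul hP hP', _, VS_mul hQ hQ', mul_ne_zero q0 q0', div_mul_div_comm _ _ _ _⟩
  add_mem' := by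
    rintro _ _ ⟨e, P, hP, Q, hQ, q0, rfl⟩ ⟨e', P', hP', Q', hQ', q0', rfl⟩
    exact ⟨_, _, add_mem (VS_mul hP hQ') (VS_mul hQ hP'), _, VS_mul hQ hQ', mul_ne_zero q0 q0',
      div_add_div _ _ q0 q0'⟩
  algebraMap_mem' c := ⟨1, c • s ^ 1, Submodule.smul_mem _ c (VS_pow hs 1), s ^ 1, VS_pow hs 1,
    pow_ne_zero _ s0, by rw [Algebra.smul_def, mul_div_cancel_right₀ _ (pow_ne_zero _ s0)]⟩
  inv_mem' := by
    rintro _ ⟨e, P, hP, Q, hQ, q0, rfl⟩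
    by_cases p0 : P = 0
    · exact ⟨e, 0, zero_mem _, Q, hQ, q0, by simp [p0]⟩
    · exact ⟨e, Q, hQ, P, hP, p0, inv_div _ _⟩

theorem lin_of (hM : Fnd M) (hO : (toNS hM.toFinS).OK) {T : Finset K} {D : Dr M} (h : IsTh T D)
    (hb : 0 < II M D D) : Lin T := by
  have e := vs_eq h hM.toB1
  refine ⟨fun n => e n ▸ hM.hfin _, ?_, fun z => ?_,
    fun o s h1 h2 h3 n g hg => vs_cst h hM.toB2 h1 h2 h3 hg⟩
  · obtain ⟨k, hk⟩ := exists_gen hM hO (h.nef hM) hb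
    exact ⟨k, e k ▸ hk⟩
  · obtain ⟨k, g, g0, hg⟩ := exists_gen' hM hO (h.nef hM) hb
    obtain ⟨p, -⟩ := ROK.off hM ∅
    obtain ⟨s, hs, s0, -⟩ := h.gen p
    have : (⊤ : IntermediateField ℂ K) ≤ Rt T hs s0 := by
      rw [← (M.gens : _ = ⊤), IntermediateField.adjoin_le_iff]
      rintro _ ⟨a, ha, b, hb, rfl⟩
      by_cases b0 : b = 0
      · simp only [b0, div_zero]
        exact zero_mem _
      exact ⟨k, _, e k ▸ hg a ha, _, e k ▸ hg b hb, mul_ne_zero g0 b0,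
        (mul_div_mul_left a b g0).symm⟩
    exact this IntermediateField.mem_top

end

end Pool.Agent.MP_5d9b3c_ag.P3V
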