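import Pool.Agent.MP_ee8c61_ag.M3J.Fin

/-!
Global potentials on a surface.
-/

namespace Pool.Agent.MP_5d9b3c_ag.P3V

open Pool.Agent.MP_ee8c61_ag M3 M3RESID M3F M3S M3J Pool.Agent.MP_96693b_ag.RS
  Pool.Agent.MP_cce4c9_lc.H87 WithZero

noncomputable section

variable {K : Type} [Field K] [Algebra ℂ K] {M : Model K 2}
variable {d : M3RESID.Dv K} {C : M3RESID.Co K 2} {v : VF K} {b : ℂ}

theorem svG (hM : Fnd M) {a : Crv M → ℂ} (hE : ∀ Γ, Exp d (oC Γ) (a Γ))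
    {c : Crv M → ℤ} {J : Finset (Crv M)} (hJ : ∀ Γ ∉ J, a Γ = 1 ∧ c Γ = -1) (hP : Prim M d C v c)
    {Λ : Dr M} (hΛ : ∀ Γ, Λ Γ = -((c Γ : ℝ) + 1) - KD M Γ) {η : M.P → K}
    (hη : ∀ p, Eqn Λ p (η p)) (hML : M3V.ML M η) :
    ∃ u ∈ d.Ex, ∀ Γ : Crv M, v - u ∈ LV (oC Γ) (c Γ) := by
  obtain ⟨t, h1, h2⟩ := hP
  have hB := hM.toB3.toB2
  have hρ := rho_ne hB C
  choose pt hpt using fun Γ : Crv M => (⟨_, Γ.2.choose_spec.1⟩ : ∃ p, On Γ p)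
  have iff : ∀ Γ x, x ∈ LB C (oC Γ) (c Γ) ↔ Γ.1.val (x * rho C) ≤ exp ⌊Λ Γ⌋ := fun Γ x => by
    rw [hΛ, mem_LB_iff hB]
  obtain ⟨f, hf⟩ := glue hB.toB1 hη hML (fun Γ => t (pt Γ) * rho C)
    ((J.finite_toSet.union (reg_fin hB.toB1 v)).subset fun Γ hΓ => by
      by_contra hn
      simp only [Set.mem_union, not_or, Set.mem_ofPred_eq, not_not, Finset.mem_coe] at hn
      apply hΓ
      obtain ⟨C', hA⟩ := exists_At hB.toB1 Γ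
      obtain ⟨e1, e2⟩ := hJ Γ hn.1
      refine (iff Γ _).1 (LB_of_ex hA (hE Γ) (fun m hm => ?_) ?_)
      · have : ((1 + m : ℤ) : ℂ) ≠ 0 := Int.cast_ne_zero.2 (by omega)
        rw [e1]
        simpa using this
      · have := sub_mem (e2 ▸ hn.2.lv hA) (h1 _ Γ (hpt Γ))
        rwa [sub_sub_cancel] at this)
    (fun p => ⟨t p * rho C, fun Γ hp => by
      rw [← sub_mul]
      exact (iff Γ _).1 (h2 p _ Γ hp (hpt Γ))⟩)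
  refine ⟨_, ex_mem d C (f / rho C), fun Γ => ?_⟩
  obtain ⟨C', hA⟩ := exists_At hB.toB1 Γ
  have h3 : f / rho C - t (pt Γ) ∈ LB C (oC Γ) (c Γ) := (iff _ _).2 (by
    rw [sub_mul, div_mul_cancel₀ _ hρ]
    exact hf Γ)
  have := sub_mem (h1 _ Γ (hpt Γ)) (ex_LV' hA (hE Γ) h3)
  rwa [ex_sub, sub_sub, add_sub_cancel] at this

theorem svkG (hM : Fnd M) (hK : M3V.KvN M) (h : Srf C d v b) {a : Crv M → ℚ}
    (hE : ∀ Γ, Exp d (oC Γ) (a Γ)) {c : Crv M → ℤ} {J : Finset (Crv M)}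
    (hs : SncC (J : Set (Crv M))) (hJ : ∀ Γ ∉ J, a Γ = 1 ∧ c Γ = -1) (hP : Prim M d C v c)
    {N : Dr M} (hQ : M3SN.IsQ N) (hN0 : ∀ Γ ∉ J, N Γ = 0)
    (h1 : ∀ Γ, N Γ ≤ 1 - 2 * a Γ - c Γ) (h2 : ∀ Γ, -2 * (a Γ : ℝ) - c Γ < N Γ)
    (hN : Nef N) (hN2 : 0 < II M N N) : ∃ u ∈ d.Ex, ∀ Γ : Crv M, v - u ∈ LV (oC Γ) (c Γ) := by
  classical
  let A : Dr M := Finsupp.onFinset J (fun Γ => (a Γ : ℝ) - 1) fun Γ hΓ => by
    by_contra hn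
    exact hΓ (by simp [(hJ Γ hn).1])
  let Z : Dr M := Finsupp.onFinset J (fun Γ => -((c Γ : ℝ) + 1)) fun Γ hΓ => by
    by_contra hn
    exact hΓ (by simp [(hJ Γ hn).2])
  have hA : ∀ Γ, A Γ = a Γ - 1 := fun _ => rfl
  have hZ : ∀ Γ, Z Γ = -((c Γ : ℝ) + 1) := fun _ => rfl
  have hI : IsInt (Z - KD M) := fun Γ => by
    obtain ⟨n, hn⟩ := hM.kZ Γ
    exact ⟨-(c Γ + 1) - n, by rw [Finsupp.sub_apply, hZ, hn]; push_cast; ring⟩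
  choose η hη using hM.eqn _ hI
  have hK' := KD_num hM.toB3 h hE hA
  have hΔ : ∀ Γ, (Z - (2 : ℝ) • A - N) Γ = 1 - 2 * a Γ - c Γ - N Γ := fun Γ => by
    rw [Finsupp.sub_apply, Finsupp.sub_apply, Finsupp.smul_apply, hZ, hA, smul_eq_mul]
    ring
  have e : ∀ E, II M (Z - KD M - KD M - (Z - (2 : ℝ) • A - N)) E = II M N E := fun E => by
    simp only [map_sub, map_smul, LinearMap.sub_apply, LinearMap.smul_apply, hK', smul_eq_mul]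
    ring
  refine svG hM (a := fun Γ => a Γ) hE (J := J)
    (fun Γ hΓ => ⟨by simp [(hJ Γ hΓ).1], (hJ Γ hΓ).2⟩) hP (Λ := Z - KD M) (fun Γ => rfl) hη
    (hK J _ (Z - (2 : ℝ) • A - N) η hs hI (fun Γ => ?_) (fun Γ hΓ => ?_) (fun Γ => ?_)
      (fun Γ => ?_) (fun Γ => ?_) ?_ hη)
  · obtain ⟨r, hr⟩ := hQ Γ
    exact ⟨1 - 2 * a Γ - c Γ - r, by rw [hΔ, hr]; push_cast; ring⟩
  · rw [hΔ, (hJ Γ hΓ).1, (hJ Γ hΓ).2, hN0 Γ hΓ]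
    norm_num
  · have := h1 Γ
    rw [hΔ, Finsupp.zero_apply]
    linarith
  · have := h2 Γ
    rw [hΔ]
    linarith
  · rw [e]
    exact hN Γ
  · rw [e, hM.sym, e]
    exact hN2

theorem vqG (hM : Fnd M) (hO : (toNS hM.toFinS).OK) (hK : M3V.KvN M) (h : Srf C d v b)
    {a α Q : Crv M → ℚ} (hE : ∀ Γ, Exp d (oC Γ) (a Γ)) {J : Finset (Crv M)}
    (hs : SncC (J : Set (Crv M))) (hJ : ∀ Γ ∉ J, a Γ = 1 ∧ α Γ = 0 ∧ Q Γ = 0)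
    (hl : ∀ Γ, α Γ ≤ a Γ) (hQ : ∀ Γ, 0 ≤ Q Γ) (hlQ : ∀ Γ, a Γ = α Γ → 0 < Q Γ)
    {A Qd : Dr M} (hA : ∀ Γ, A Γ = α Γ) (hQd : ∀ Γ, Qd Γ = Q Γ) (nA : Nef (-A)) (nQ : Nef Qd)
    (bQ : 0 < II M Qd Qd)
    (hP : ((∀ Γ, α Γ ≤ 0) ∧ ∀ Γ ∉ J, Reg (oC Γ) v) ∨ Prim M d C v fun Γ => ⌈α Γ - a Γ⌉) :
    ∃ u ∈ d.Ex, ∀ Γ, (a Γ = α Γ → v - u ∈ LV (oC Γ) 0) ∧
      (α Γ = 0 → Q Γ = 0 → Hon d v (oC Γ) (a Γ) →
        v - u ∈ LV (oC Γ) 0 ∨ (a Γ = 1 ∧ Reg (oC Γ) (v - u))) := by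
  obtain ⟨δ, hδ, hδQ⟩ := exists_small J Q hQ
  have hδR : (0 : ℝ) < δ := by exact_mod_cast hδ
  have hδ1 : ∀ Γ, δ * Q Γ ≤ 1 := fun Γ => by
    by_cases h : Γ ∈ J
    · exact hδQ Γ h
    · rw [(hJ Γ h).2.2, mul_zero]; exact zero_le_one
  let x : Crv M → ℚ := fun Γ => 1 - 2 * (a Γ - α Γ) - δ * Q Γ
  have hx : ∀ Γ, x Γ < 1 - (a Γ - α Γ) := fun Γ => by
    have h1 := hl Γ
    have h2 := mul_nonneg hδ.le (hQ Γ)
    rcases h1.eq_or_lt with e | e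
    · have := mul_pos hδ (hlQ Γ e.symm)
      simp only [x]
      linarith
    · simp only [x]
      linarith
  have hc0 : ∀ Γ, ⌊x Γ⌋ ≤ ⌈α Γ - a Γ⌉ := fun Γ => by
    have h1 := Int.floor_le (x Γ)
    have h2 := Int.le_ceil (α Γ - a Γ)
    have h3 := hx Γ
    have : (⌊x Γ⌋ : ℚ) < (⌈α Γ - a Γ⌉ + 1 : ℤ) := by push_cast; linarith
    have := Int.cast_lt.1 this
    omega
  have hoff : ∀ Γ, α Γ = 0 → Q Γ = 0 → a Γ = 1 → ⌊x Γ⌋ = -1 := fun Γ e1 e2 e3 => by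
    simp only [x, e1, e2, e3]
    norm_num
  have hN : ∀ Γ, ((2 : ℝ) • (-A) + (δ : ℝ) • Qd) Γ = ((1 - 2 * a Γ - x Γ : ℚ) : ℝ) := fun Γ => by
    rw [Finsupp.add_apply, Finsupp.smul_apply, Finsupp.smul_apply, Finsupp.neg_apply, hA, hQd]
    simp only [x, smul_eq_mul]
    push_cast
    ring
  have kle : ∀ P P' : Dr M, Nef P → Nef P' → 0 ≤ II M P P' := hO.tools.kle
  obtain ⟨u, hu, h1⟩ : ∃ u ∈ d.Ex, ∀ Γ : Crv M, v - u ∈ LV (oC Γ) ⌊x Γ⌋ := by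
    refine svkG hM hK h hE (c := fun Γ => ⌊x Γ⌋) hs
      (fun Γ hΓ => ⟨(hJ Γ hΓ).1, hoff Γ (hJ Γ hΓ).2.1 (hJ Γ hΓ).2.2 (hJ Γ hΓ).1⟩) ?_
      (N := (2 : ℝ) • (-A) + (δ : ℝ) • Qd) (fun Γ => ⟨_, hN Γ⟩) (fun Γ hΓ => ?_) (fun Γ => ?_)
      (fun Γ => ?_) (fun Γ => ?_) ?_
    · rcases hP with ⟨h0, hr⟩ | hP
      · refine prim_of_red hM.toB1 h.prim (a := fun Γ => a Γ) hE hs (fun Γ hΓ =>
          ⟨by simp [(hJ Γ hΓ).1], hoff Γ (hJ Γ hΓ).2.1 (hJ Γ hΓ).2.2 (hJ Γ hΓ).1, hr Γ hΓ⟩)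
          (fun Γ => (hc0 Γ).trans (Int.ceil_le.2 (by have := hl Γ; push_cast; linarith)))
          fun Γ m hm e => ?_
        have e' : a Γ + m = 0 := by exact_mod_cast e
        have h1 := Int.floor_le (x Γ)
        have h2 : ((m + 1 : ℤ) : ℚ) ≤ ⌊x Γ⌋ := Int.cast_le.2 hm
        have h3 := hx Γ
        have h4 := h0 Γ
        push_cast at h2
        linarith
      · exact hP.anti hc0
    · rw [hN]
      simp only [x, (hJ Γ hΓ).1, (hJ Γ hΓ).2.1, (hJ Γ hΓ).2.2]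
      norm_num
    · rw [hN]
      have : 1 - 2 * a Γ - x Γ ≤ 1 - 2 * a Γ - ⌊x Γ⌋ := by linarith [Int.floor_le (x Γ)]
      exact_mod_cast this
    · rw [hN]
      have : -2 * a Γ - ⌊x Γ⌋ < 1 - 2 * a Γ - x Γ := by linarith [Int.lt_floor_add_one (x Γ)]
      exact_mod_cast this
    · rw [map_add, map_smul, map_smul, LinearMap.add_apply, LinearMap.smul_apply,
        LinearMap.smul_apply, smul_eq_mul, smul_eq_mul]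
      exact add_nonneg (mul_nonneg zero_le_two (nA Γ)) (mul_nonneg hδR.le (nQ Γ))
    · simp only [map_add, map_smul, LinearMap.add_apply, LinearMap.smul_apply, smul_eq_mul]
      have h1 := kle _ _ nA nA
      have h2 := mul_nonneg hδR.le (kle _ _ nA nQ)
      have h3 := mul_nonneg hδR.le (kle _ _ nQ nA)
      have h4 := mul_pos hδR (mul_pos hδR bQ)
      linarith
  refine ⟨u, hu, fun Γ => ⟨fun e => M3J.LV_anti (Int.floor_nonneg.2 ?_) (h1 Γ), ?_⟩⟩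
  · have := hδ1 Γ
    simp only [x, e]
    linarith
  rintro e1 e2 (⟨r, hr, e4⟩ | ⟨e4, w, hw, e5⟩)
  · refine Or.inl (M3J.LV_anti (Int.floor_nonneg.2 ?_) (h1 Γ))
    have h2 : (2 : ℚ) ≤ r := by exact_mod_cast hr
    have h3 : (1 : ℚ) / r ≤ 1 / 2 := one_div_le_one_div_of_le two_pos h2
    simp only [x, e1, e2, e4]
    linarith
  · obtain ⟨C', hA'⟩ := exists_At hM.toB1 Γ
    have h2 := hE Γ
    rw [e4, Rat.cast_one] at h2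
    refine Or.inr ⟨e4, reg_of_res hA' h2 (sub_mem hw hu) ?_ (hoff Γ e1 e2 e4 ▸ h1 Γ)⟩
    rw [show v - u - (w - u) = v - w by abel]
    exact e5

end

end Pool.Agent.MP_5d9b3c_ag.P3V
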